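import Pool.Agent.H83.HE.Stm

set_option autoImplicit false

namespace Pool.Agent.H59.HE

open Pool.Agent.H83.HE

theorem t_DIV : S_DIV := by
  intro q a b M M' X hM' h20 hE
  set E : Matrix (Fin 3) (Fin 3) ℤ := M ^ 2 - a • M - b • (1 : Matrix (Fin 3) (Fin 3) ℤ) with hEdef
  have hXX : X⁻¹.val * X.val = 1 := by
    rw [← Units.val_mul, inv_mul_cancel, Units.val_one]
  have hXX' : X.val * X⁻¹.val = 1 := by
    rw [← Units.val_mul, mul_inv_cancel, Units.val_one]
  have h1 : M' ^ 2 - a • M' - b • (1 : Matrix (Fin 3) (Fin 3) ℤ) = X.val * E * X⁻¹.val := by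
    have e1 : M' ^ 2 = X.val * M ^ 2 * X⁻¹.val := by
      rw [hM', pow_two, pow_two]
      calc X.val * M * X⁻¹.val * (X.val * M * X⁻¹.val)
          = X.val * M * (X⁻¹.val * X.val) * M * X⁻¹.val := by simp only [mul_assoc]
        _ = X.val * (M * M) * X⁻¹.val := by rw [hXX, mul_one]; simp only [mul_assoc]
    have e2 : a • M' = X.val * (a • M) * X⁻¹.val := by
      rw [hM', Matrix.mul_smul, Matrix.smul_mul]
    have e3 : b • (1 : Matrix (Fin 3) (Fin 3) ℤ) =
        X.val * (b • (1 : Matrix (Fin 3) (Fin 3) ℤ)) * X⁻¹.val := by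
      rw [Matrix.mul_smul, Matrix.smul_mul, mul_one, hXX']
    rw [e1, e2, hEdef, mul_sub, mul_sub, sub_mul, sub_mul, ← e3]
  have h2 : q ∣ (X.val * E * X⁻¹.val) 2 0 := by
    rw [Matrix.mul_apply]
    apply Finset.dvd_sum
    intro l _
    apply Dvd.dvd.mul_right
    rw [Matrix.mul_apply]
    apply Finset.dvd_sum
    intro k _
    exact Dvd.dvd.mul_left (hE k l) _
  rw [← h1] at h2
  have h3 : (M' ^ 2 - a • M' - b • (1 : Matrix (Fin 3) (Fin 3) ℤ)) 2 0 = M' 2 1 * M' 1 0 := by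
    rw [Matrix.sub_apply, Matrix.sub_apply, Matrix.smul_apply, Matrix.smul_apply, pow_two,
      Matrix.mul_apply, Fin.sum_univ_three, h20, Matrix.one_apply_ne (by decide)]
    simp
  rw [h3] at h2
  exact h2

end Pool.Agent.H59.HE
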